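import Mathlib

namespace Pool.Agent.Results.MP_69a59d_an.Bounded

open Filter Topology
open scoped InnerProductSpace

variable {H : Type*} [NormedAddCommGroup H] [InnerProductSpace ℂ H]

lemma approx (T : H →ₗ[ℂ] H) (hT : ∀ x, ‖T x‖ ^ 2 ≤ ‖T (T x)‖ * ‖x‖) (y : H) {k : ℝ} (hk : 0 < k) :
    ∃ α : H →L[ℂ] ℂ, ∀ x, ‖⟪y, T x⟫_ℂ - α x‖ ≤ ‖y‖ * ‖T (T x)‖ * k := by
  have hk' : (k : ℂ) ≠ 0 := by exact_mod_cast hk.ne'
  let J : H →ₗ[ℂ] H × H := LinearMap.prod ((k : ℂ)⁻¹ • LinearMap.id) ((k : ℂ) • (T ∘ₗ T))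
  have hJ : ∀ x, J x = ((k : ℂ)⁻¹ • x, (k : ℂ) • T (T x)) := fun x => rfl
  have hinj : Function.Injective J := fun a b h => by
    have := congrArg Prod.fst h
    simpa [hJ, hk'] using this
  have hb : ∀ x, ‖⟪y, T x⟫_ℂ‖ ≤ ‖y‖ * ‖J x‖ := fun x => by
    refine (norm_inner_le_norm _ _).trans (mul_le_mul_of_nonneg_left ?_ (norm_nonneg _))
    have h1 := norm_fst_le (J x)
    have h2 := norm_snd_le (J x)
    simp only [hJ, norm_smul, norm_inv, Complex.norm_real, Real.norm_of_nonneg hk.le] at h1 h2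
    refine le_of_sq_le_sq ((hT x).trans ?_) (norm_nonneg _)
    calc _ = (k * ‖T (T x)‖) * (k⁻¹ * ‖x‖) := by field_simp
      _ ≤ _ := by rw [sq]; exact mul_le_mul h2 h1 (by positivity) (norm_nonneg _)
  let e := LinearEquiv.ofInjective J hinj
  let f : LinearMap.range J →ₗ[ℂ] ℂ := (innerSL ℂ y).toLinearMap ∘ₗ T ∘ₗ e.symm.toLinearMap
  have hf : ∀ v, ‖f v‖ ≤ ‖y‖ * ‖v‖ := fun v => by
    obtain ⟨x, rfl⟩ := e.surjective v
    have he : ((e x : LinearMap.range J) : H × H) = J x := rfl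
    simpa [f, he] using hb x
  obtain ⟨g, hg, hg'⟩ := exists_extension_norm_eq _ (f.mkContinuous _ hf)
  have hg2 : ‖g‖ ≤ ‖y‖ := hg'.le.trans (f.mkContinuous_norm_le (norm_nonneg _) hf)
  refine ⟨(k : ℂ)⁻¹ • g.comp (ContinuousLinearMap.inl ℂ H H), fun x => ?_⟩
  have h1 : g (J x) = ⟪y, T x⟫_ℂ := by
    have he : ((e x : LinearMap.range J) : H × H) = J x := rfl
    simpa [f, he] using hg (e x)
  have h2 : g (J x) - ((k : ℂ)⁻¹ • g.comp (ContinuousLinearMap.inl ℂ H H)) x =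
      g (0, (k : ℂ) • T (T x)) := by
    rw [smul_apply, ← map_smul]
    change g _ - g _ = _
    rw [← map_sub, hJ]
    simp
  rw [← h1, h2]
  refine (g.le_of_opNorm_le hg2 _).trans (le_of_eq ?_)
  rw [Prod.norm_mk, norm_zero, max_eq_right (norm_nonneg _), norm_smul, Complex.norm_real,
    Real.norm_of_nonneg hk.le]
  ring

/-- Every everywhere defined paranormal linear map on a complex Hilbert space is bounded. -/
theorem result [CompleteSpace H] (T : H →ₗ[ℂ] H) (hT : ∀ x, ‖T x‖ ^ 2 ≤ ‖T (T x)‖ * ‖x‖) :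
    ∃ C : ℝ, ∀ x, ‖T x‖ ≤ C * ‖x‖ := by
  have h1 : ∀ y, Continuous fun x => ⟪y, T x⟫_ℂ := fun y => by
    choose α hα using fun n : ℕ => approx T hT y (k := 1 / ((n : ℝ) + 1)) (by positivity)
    have ht : ∀ x, Tendsto (fun n => α n x) atTop (𝓝 ⟪y, T x⟫_ℂ) := fun x => by
      rw [tendsto_iff_norm_sub_tendsto_zero]
      refine squeeze_zero (fun _ => norm_nonneg _) (fun n => (norm_sub_rev _ _).le.trans (hα n x)) ?_
      simpa using (tendsto_one_div_add_atTop_nhds_zero_nat (𝕜 := ℝ)).const_mul (‖y‖ * ‖T (T x)‖)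
    obtain ⟨C, hC⟩ := banach_steinhaus (g := α) fun x => by
      obtain ⟨C, hC⟩ := (ht x).norm.bddAbove_range
      exact ⟨C, fun n => hC ⟨n, rfl⟩⟩
    exact AddMonoidHomClass.continuous_of_bound ((innerSL ℂ y).toLinearMap ∘ₗ T) C fun x =>
      le_of_tendsto' (ht x).norm fun n => (α n).le_of_opNorm_le (hC n) x
  have h2 : Continuous T := T.continuous_of_seq_closed_graph fun u x z hu hz =>
    ext_inner_left ℂ fun y => tendsto_nhds_unique (tendsto_const_nhds.inner hz)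
      (((h1 y).tendsto x).comp hu)
  exact ⟨‖(⟨T, h2⟩ : H →L[ℂ] H)‖, (⟨T, h2⟩ : H →L[ℂ] H).le_opNorm⟩

end Pool.Agent.Results.MP_69a59d_an.Bounded
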